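import Pool.Agent.X204.RSET

/-!
Self-avoiding walks on the honeycomb lattice (brick-wall coordinates, same description as in the
frozen statement): the probabilities of rare events for the end point, and the laws conditioned on
them, at the lengths `n` and `n + 2`.
-/

set_option autoImplicit false

namespace Pool.Agent.Results.MP_b440f6_pr.EndPointRareEvents

open Filter Topology

/-- Adjacency in the honeycomb lattice (brick-wall model), as in the frozen statement. -/
def Nbr (p q : ℤ × ℤ) : Prop :=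
  (p.2 = q.2 ∧ (p.1 - q.1 = 1 ∨ q.1 - p.1 = 1)) ∨
    (p.1 = q.1 ∧ ((q.2 = p.2 + 1 ∧ Even (p.1 + p.2)) ∨ (p.2 = q.2 + 1 ∧ Even (q.1 + q.2))))

/-- The set of `n`-step self-avoiding walks from the origin. -/
def walks (n : ℕ) : Set (Fin (n + 1) → ℤ × ℤ) :=
  {ω | ω 0 = (0, 0) ∧ Function.Injective ω ∧ ∀ i : Fin n, Nbr (ω i.castSucc) (ω i.succ)}

/-- The mean of the function `F` of the end point of the uniform `n`-step self-avoiding walk. -/
noncomputable def mean (n : ℕ) (F : ℤ × ℤ → ℝ) : ℝ :=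
  (∑ᶠ ω ∈ walks n, F (ω (Fin.last n))) / ((walks n).ncard : ℝ)

/-- The probability that the end point of the uniform `n`-step self-avoiding walk is in `S`. -/
noncomputable def prob (n : ℕ) (S : Set (ℤ × ℤ)) : ℝ :=
  ({ω ∈ walks n | ω (Fin.last n) ∈ S}.ncard : ℝ) / ((walks n).ncard : ℝ)

theorem nbr_iff (p q : ℤ × ℤ) : Nbr p q ↔ TH966.AK.Hex.A p q := by
  rw [TH966.AK.Hex.A_iff]
  unfold Nbr
  rw [Int.even_iff, Int.even_iff]
  omega

theorem walks_eq (n : ℕ) : walks n = TH966.AK.wks TH966.AK.Hex.A n := by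
  ext f
  unfold walks TH966.AK.wks
  simp only [Set.mem_ofPred_eq]
  constructor
  · rintro ⟨h1, h2, h3⟩
    exact ⟨h1, h2, fun i => (nbr_iff _ _).1 (h3 i)⟩
  · rintro ⟨h1, h2, h3⟩
    exact ⟨h1, h2, fun i => (nbr_iff _ _).2 (h3 i)⟩

/-- **Theorem.** For the self-avoiding walk on the honeycomb lattice there are `R, δ > 0` such that for
all large `n` and all `0 ≤ E ≤ δ n`, with `r = R √((E + (log n)^2) / n)`:
(1) if `F` is a function of the end point with `0 ≤ F ≤ B` for the vertices with coordinates at most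
`2 n` in absolute value, `B > 0`, and the mean of `F` for `n` steps is at least `exp (-E) B`, then the
quotient of the means of `F` for `n + 2` and for `n` steps differs from `1` by at most `r`;
(2) if the end point of the walk with `n` steps is in the set `S` of vertices with probability at
least `exp (-E)`, then the quotient of this probability for `n + 2` and for `n` steps differs from `1`
by at most `r`, and the laws of the end points of the walks with `n + 2` and with `n` steps,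
conditioned to be in `S`, are at total variation distance at most `r`. -/
theorem result : ∃ R δ : ℝ, 0 < R ∧ 0 < δ ∧ ∀ᶠ n : ℕ in atTop, ∀ E : ℝ, 0 ≤ E → E ≤ δ * n →
    (∀ (F : ℤ × ℤ → ℝ) (B : ℝ), 0 < B →
      (∀ x : ℤ × ℤ, |x.1| ≤ 2 * n → |x.2| ≤ 2 * n → 0 ≤ F x ∧ F x ≤ B) →
      Real.exp (-E) * B ≤ mean n F →
        |mean (n + 2) F / mean n F - 1| ≤ R * √((E + Real.log n ^ 2) / n)) ∧
    ∀ S : Set (ℤ × ℤ), Real.exp (-E) ≤ prob n S →
      |prob (n + 2) S / prob n S - 1| ≤ R * √((E + Real.log n ^ 2) / n) ∧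
      ∀ T : Set (ℤ × ℤ), T ⊆ S →
        |prob (n + 2) T / prob (n + 2) S - prob n T / prob n S| ≤
          R * √((E + Real.log n ^ 2) / n) := by
  obtain ⟨-, K, G⟩ := TH966.AK.hex_growth (fun n => Set.ncard {f : Fin (n + 1) → ℤ × ℤ |
            f 0 = 0 ∧ Function.Injective f ∧
            ∀ i : Fin n, TH966.AK.AdjH (f i.castSucc) (f i.succ)}) (fun _ => rfl)
  obtain ⟨R₁, δ₁, hR₁, hδ₁, h₁⟩ := Pool.Agent.X204.RARE.rare_box G
  obtain ⟨R₂, δ₂, hR₂, hδ₂, h₂⟩ := Pool.Agent.X204.RSET.sets G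
  have hmean : ∀ (n : ℕ) (F : ℤ × ℤ → ℝ), mean n F =
      TH966.AK.WF TH966.AK.Hex.A F n / ((TH966.AK.Kw TH966.AK.Hex.A n).card : ℝ) := by
    intro n F
    unfold mean
    rw [walks_eq, TH966.AK.sum_wks TH966.AK.Hex.rule, TH966.AK.card_wks TH966.AK.Hex.rule]
  have hprob : ∀ (n : ℕ) (S : Set (ℤ × ℤ)), prob n S =
      Pool.Agent.X204.RSET.pS TH966.AK.Hex.A n S := by
    intro n S
    unfold prob
    rw [Pool.Agent.X204.RSET.pS_eq TH966.AK.Hex.rule, walks_eq]
  have hs : TH966.AK.Hex.rule.s = 2 := rfl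
  refine ⟨R₁ + R₂, min δ₁ δ₂, by positivity, lt_min hδ₁ hδ₂, ?_⟩
  filter_upwards [h₁, h₂, eventually_ge_atTop 1] with n a₁ a₂ hn E hE0 hE1
  have hn0 : (0 : ℝ) < n := by exact_mod_cast hn
  have hE₁ : E ≤ δ₁ * n := hE1.trans (mul_le_mul_of_nonneg_right (min_le_left _ _) hn0.le)
  have hE₂ : E ≤ δ₂ * n := hE1.trans (mul_le_mul_of_nonneg_right (min_le_right _ _) hn0.le)
  have hq : 0 ≤ √((E + Real.log n ^ 2) / n) := Real.sqrt_nonneg _
  refine ⟨fun F B hB hF hlow => ?_, fun S hS => ?_⟩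
  · rw [hmean] at hlow
    have h3 := a₁ F B hB (fun x hx => hF x (by simpa using hx.1) (by simpa using hx.2)) E hE0 hE₁
      hlow
    rw [hmean, hmean]
    rw [hs] at h3
    exact h3.trans (mul_le_mul_of_nonneg_right (by linarith) hq)
  · rw [hprob] at hS
    obtain ⟨h3, h4⟩ := a₂ S E hE0 hE₂ hS
    rw [hs] at h3 h4
    constructor
    · rw [hprob, hprob]
      exact h3.trans (mul_le_mul_of_nonneg_right (by linarith) hq)
    · intro T hT
      rw [hprob, hprob, hprob, hprob]
      exact (h4 T hT).trans (mul_le_mul_of_nonneg_right (by linarith) hq)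

end Pool.Agent.Results.MP_b440f6_pr.EndPointRareEvents
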