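import Pool.Agent.X130.ST.G

/-!
Self-avoiding walks in strips of the honeycomb lattice: the connective constant of the strip of
height `T` differs from `√(2+√2)` by a factor between `exp (- C T^(-1-c/log log T))` and
`exp (- 1/(8 T^2))`.
-/

set_option autoImplicit false

namespace Pool.Agent.Results.MP_b440f6_pr.StripGrowthRates

open Filter Topology

/-- Adjacency in the honeycomb lattice (brick-wall model), as in the frozen statement. -/
def Nbr (p q : ℤ × ℤ) : Prop :=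
  (p.2 = q.2 ∧ (p.1 - q.1 = 1 ∨ q.1 - p.1 = 1)) ∨
    (p.1 = q.1 ∧ ((q.2 = p.2 + 1 ∧ Even (p.1 + p.2)) ∨ (p.2 = q.2 + 1 ∧ Even (q.1 + q.2))))

/-- The strip with `2 T` levels: in the honeycomb lattice with edges of length one, the coordinate
`p.1 - p.2` is constant on the lines of one of the three directions perpendicular to edges, and the
strip has width of order `T`. -/
def Strip (T : ℕ) : Set (ℤ × ℤ) := {p | 1 ≤ p.1 - p.2 ∧ p.1 - p.2 ≤ 2 * T}

/-- The `n`-step self-avoiding walks in `D` which start at `a`, as lists of `n + 1` vertices. -/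
def walks (D : Set (ℤ × ℤ)) (a : ℤ × ℤ) (n : ℕ) : Set (List (ℤ × ℤ)) :=
  {l | l.length = n + 1 ∧ l.head? = some a ∧ l.Nodup ∧ l.IsChain Nbr ∧ ∀ p ∈ l, p ∈ D}

/-- The number of `n`-step self-avoiding walks in the strip, up to translation along the strip: the
walks which start at one of the vertices `(1, 0), ..., (2 T, 0)`, one of each level. -/
noncomputable def c (T n : ℕ) : ℕ :=
  ∑ h ∈ Finset.Icc 1 (2 * T), (walks (Strip T) ((h : ℤ), 0) n).ncard

theorem c_eq (T n : ℕ) : c T n = Pool.Agent.X130.ST.cs T n := by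
  unfold c Pool.Agent.X130.ST.cs
  apply Finset.sum_congr rfl
  intro h _
  exact Pool.Agent.X130.ST.ncard_Wk _ _ _

/-- **Theorem.** For every `T ≥ 1` the connective constant `μ_T = lim_n c_{T,n}^(1/n)` of the strip
with `2 T` levels of the honeycomb lattice exists, and with `μ = √(2+√2)`:
(1) `μ_T ≤ μ exp (- 1/(8 T^2))` for all `T ≥ 1`;
(2) `μ_T ≥ μ exp (- C T^(-1-c/log log T))` for all `T ≥ 16`, with constants `c, C > 0`. -/
theorem result : ∃ (μ : ℕ → ℝ) (c₀ C₀ : ℝ), 0 < c₀ ∧ 0 < C₀ ∧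
    (∀ T : ℕ, 1 ≤ T → Tendsto (fun n : ℕ => (c T n : ℝ) ^ (1 / (n : ℝ))) atTop (𝓝 (μ T))) ∧
    (∀ T : ℕ, 1 ≤ T →
      μ T ≤ Real.sqrt (2 + Real.sqrt 2) * Real.exp (-(1 / (8 * (T : ℝ) ^ 2)))) ∧
    (∀ T : ℕ, 16 ≤ T → Real.sqrt (2 + Real.sqrt 2) *
      Real.exp (-(C₀ * (T : ℝ) ^ (-1 - c₀ / Real.log (Real.log T)))) ≤ μ T) := by
  classical
  have hex : ∀ T : ℕ, ∃ μ : ℝ, 1 ≤ T → 0 < μ ∧
      Tendsto (fun n : ℕ => (Pool.Agent.X130.ST.cs T n : ℝ) ^ (1 / (n : ℝ))) atTop (𝓝 μ) ∧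
      (∀ n : ℕ, μ ^ n ≤ Pool.Agent.X130.ST.cs T n) ∧
      ∀ δ : ℝ, 0 < δ → ∃ B : ℝ, 0 < B ∧ ∀ n : ℕ,
        (Pool.Agent.X130.ST.cs T n : ℝ) ≤ B * (μ * Real.exp δ) ^ n := by
    intro T
    by_cases hT : 1 ≤ T
    · obtain ⟨μ, h1, h2, h3, h4⟩ := Pool.Agent.X130.ST.exists_mu hT
      exact ⟨μ, fun _ => ⟨h1, h2, h3, h4⟩⟩
    · exact ⟨1, fun h => absurd h hT⟩
  choose μ hμ using hex
  obtain ⟨c₀, hc0, hc1, has⟩ := Pool.Agent.X130.ST.asym
  obtain ⟨T₀, hT₀⟩ := eventually_atTop.1 has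
  have hmu := H978R2.Hex.mu0_pos
  have hmu2 := Pool.Agent.X130.ST.mu0_le_two
  refine ⟨μ, c₀, (T₀ : ℝ) ^ 2 + 1, hc0, by positivity, ?_, ?_, ?_⟩
  · intro T hT
    simp only [c_eq]
    exact (hμ T hT).2.1
  · intro T hT
    exact Pool.Agent.X130.ST.mu_le hT (hμ T hT).1 (hμ T hT).2.2.1
  · intro T hT
    have hT1 : 1 ≤ T := by omega
    obtain ⟨h1, h2, h3, h4⟩ := hμ T hT1
    have hT0 : (1 : ℝ) ≤ T := by exact_mod_cast hT1
    change H978R2.Hex.mu0 * _ ≤ _
    have hll := Pool.Agent.X130.ST.loglog_ge hT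
    have hpow0 : 0 < (T : ℝ) ^ (-1 - c₀ / Real.log (Real.log T)) :=
      Real.rpow_pos_of_pos (by linarith) _
    rcases Nat.lt_or_ge T T₀ with hlt | hge
    · -- small heights
      have hone : 1 ≤ μ T := by
        apply ge_of_tendsto h2
        filter_upwards with n
        apply Real.one_le_rpow _ (by positivity)
        exact_mod_cast Pool.Agent.X130.ST.one_le_cs hT1 n
      have h5 : (T : ℝ) ^ (-2 : ℝ) ≤ (T : ℝ) ^ (-1 - c₀ / Real.log (Real.log T)) := by
        apply Real.rpow_le_rpow_of_exponent_le hT0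
        have : c₀ / Real.log (Real.log T) ≤ 1 := by
          rw [div_le_one (by linarith)]
          linarith
        linarith
      have h6 : (1 : ℝ) ≤ ((T₀ : ℝ) ^ 2 + 1) * (T : ℝ) ^ (-1 - c₀ / Real.log (Real.log T)) := by
        have h7 : (T : ℝ) ^ (-2 : ℝ) = ((T : ℝ) ^ 2)⁻¹ := by
          rw [Real.rpow_neg (by linarith)]
          norm_num
        rw [h7] at h5
        have h8 : (T : ℝ) ≤ T₀ := by exact_mod_cast hlt.le
        have h9 : (T : ℝ) ^ 2 ≤ (T₀ : ℝ) ^ 2 := pow_le_pow_left₀ (by linarith) h8 2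
        calc (1 : ℝ) = (T : ℝ) ^ 2 * ((T : ℝ) ^ 2)⁻¹ := by
              rw [mul_inv_cancel₀ (by positivity)]
          _ ≤ ((T₀ : ℝ) ^ 2 + 1) * (T : ℝ) ^ (-1 - c₀ / Real.log (Real.log T)) := by
              apply mul_le_mul (by linarith) h5 (by positivity) (by positivity)
      calc H978R2.Hex.mu0 * Real.exp (-(((T₀ : ℝ) ^ 2 + 1) *
            (T : ℝ) ^ (-1 - c₀ / Real.log (Real.log T)))) ≤ 2 * Real.exp (-1) := by
            apply mul_le_mul hmu2 _ (Real.exp_pos _).le (by norm_num)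
            apply Real.exp_le_exp.2
            linarith
        _ ≤ 1 := by
            have h10 := Real.add_one_le_exp (1 : ℝ)
            rw [Real.exp_neg, ← div_eq_mul_inv, div_le_one (Real.exp_pos _)]
            linarith
        _ ≤ μ T := hone
    · refine le_trans ?_ (hT₀ T hge (μ T) h1 h4)
      apply mul_le_mul_of_nonneg_left _ hmu.le
      apply Real.exp_le_exp.2
      apply neg_le_neg
      apply le_mul_of_one_le_left hpow0.le
      have := sq_nonneg (T₀ : ℝ)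
      linarith

end Pool.Agent.Results.MP_b440f6_pr.StripGrowthRates
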