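import Pool.Agent.X138.WindHex

/-!
Self-avoiding walks on the honeycomb lattice (brick-wall coordinates, same description as in the
frozen statement): with overwhelming probability the winding of every part of the uniform `n`-step
walk around every point of the plane is `O((log n)^2)`.
-/

set_option autoImplicit false

namespace Pool.Agent.Results.MP_b440f6_pr.WindingAroundPoints

/-- Adjacency in the honeycomb lattice (brick-wall model), as in the frozen statement. -/
def Nbr (p q : ℤ × ℤ) : Prop :=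
  (p.2 = q.2 ∧ (p.1 - q.1 = 1 ∨ q.1 - p.1 = 1)) ∨
    (p.1 = q.1 ∧ ((q.2 = p.2 + 1 ∧ Even (p.1 + p.2)) ∨ (p.2 = q.2 + 1 ∧ Even (q.1 + q.2))))

/-- The set of `n`-step self-avoiding walks from the origin. -/
def walks (n : ℕ) : Set (Fin (n + 1) → ℤ × ℤ) :=
  {ω | ω 0 = (0, 0) ∧ Function.Injective ω ∧ ∀ i : Fin n, Nbr (ω i.castSucc) (ω i.succ)}

/-- The vertex of the regular honeycomb lattice with edge length `1` in the plane, the origin at `0`,
which has the brick-wall coordinates `p`. -/
noncomputable def pos (p : ℤ × ℤ) : ℂ :=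
  ⟨√3 / 2 * p.1, (3 * p.2 - ((p.1 + p.2) % 2 : ℤ)) / 2⟩

/-- The position of the walk in the plane at time `i` (used only for `i ≤ n`). -/
noncomputable def pt {n : ℕ} (ω : Fin (n + 1) → ℤ × ℤ) (i : ℕ) : ℂ :=
  pos (ω (Fin.ofNat (n + 1) i))

/-- The winding of the walk around the point `z` of the plane between the times `s` and `t`: the sum
over the steps of the oriented angle in `(-π, π]` under which the step is seen from `z`. -/
noncomputable def winding {n : ℕ} (ω : Fin (n + 1) → ℤ × ℤ) (z : ℂ) (s t : ℕ) : ℝ :=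
  ∑ i ∈ Finset.Ico s t, Complex.arg ((pt ω (i + 1) - z) / (pt ω i - z))

/-- The probability that the uniform `n`-step self-avoiding walk has property `A`. -/
noncomputable def prob (n : ℕ) (A : (Fin (n + 1) → ℤ × ℤ) → Prop) : ℝ :=
  ({ω ∈ walks n | A ω}.ncard : ℝ) / ((walks n).ncard : ℝ)

theorem pos_eq (p : ℤ × ℤ) : pos p = H978R2.Hex.pos p := by
  unfold pos H978R2.Hex.pos H978R2.Hex.ht
  push_cast
  rfl

theorem nbr_iff (p q : ℤ × ℤ) : Nbr p q ↔ H978R2.Hex.Adj p q := by
  obtain ⟨a, b⟩ := p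
  obtain ⟨x, y⟩ := q
  unfold Nbr H978R2.Hex.Adj
  simp only [Prod.mk_sub_mk, Prod.mk.injEq]
  constructor
  · rintro (⟨h1, h2 | h2⟩ | ⟨h1, ⟨h2, h3⟩ | ⟨h2, h3⟩⟩)
    · right; left; omega
    · left; omega
    · right; right; left; exact ⟨by omega, h3⟩
    · right; right; right; exact ⟨by omega, h3⟩
  · rintro (h | h | ⟨h, h'⟩ | ⟨h, h'⟩)
    · left; omega
    · left; omega
    · right; exact ⟨by omega, Or.inl ⟨by omega, h'⟩⟩
    · right; exact ⟨by omega, Or.inr ⟨by omega, h'⟩⟩

theorem walks_eq (n : ℕ) : walks n = H978R2.Hex.saws n := by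
  ext f
  unfold walks H978R2.Hex.saws
  simp only [Set.mem_ofPred_eq]
  constructor
  · rintro ⟨h1, h2, h3⟩
    exact ⟨h1, h2, fun i => (nbr_iff _ _).1 (h3 i)⟩
  · rintro ⟨h1, h2, h3⟩
    exact ⟨h1, h2, fun i => (nbr_iff _ _).2 (h3 i)⟩

open Pool.Agent.X138 Pool.Agent.X138.Hx in
/-- **Theorem.** There is a constant `C` such that for every real `lam ≥ 0`, every `n ≥ 2` and every
`k`, with probability at least `1 - exp (C e^(2 lam) (log n)^2 - lam k)` every part of the uniform
`n`-step self-avoiding walk on the honeycomb lattice makes at most `3 k` full turns around every point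
of the plane: its winding around every `z` is at most `6 π k` in absolute value. -/
theorem result : ∃ C : ℝ, 0 < C ∧ ∀ lam : ℝ, 0 ≤ lam → ∀ n : ℕ, 2 ≤ n → ∀ k : ℕ,
    prob n (fun ω => ∃ s t : ℕ, s ≤ t ∧ t ≤ n ∧ ∃ z : ℂ,
      6 * Real.pi * k < |winding ω z s t|) ≤
    Real.exp (C * Real.exp (2 * lam) * Real.log n ^ 2 - lam * k) := by
  obtain ⟨K, hK, h⟩ := hex_bad
  refine ⟨K + 1, by positivity, fun lam hlam n hn k => ?_⟩
  obtain ⟨y, hy⟩ : ∃ y, y = Real.exp lam := ⟨_, rfl⟩
  have hy0 : 0 < y := by rw [hy]; exact Real.exp_pos _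
  have hy1 : 1 ≤ y := by rw [hy]; exact Real.one_le_exp hlam
  have hy2 : Real.exp (2 * lam) = y ^ 2 := by
    rw [hy, ← Real.exp_nat_mul]; push_cast; rfl
  have hyk : y ^ k * Real.exp (-(lam * k)) = 1 := by
    rw [hy, ← Real.exp_nat_mul, ← Real.exp_add]
    have : k * lam + -(lam * k) = 0 := by ring
    rw [this, Real.exp_zero]
  have hlog : 0 ≤ Real.log n ^ 2 := by positivity
  have key : Pool.Agent.Y981.QB.prob n (fun ω => ∃ s t : ℕ, s ≤ t ∧ t ≤ n ∧ ∃ z : ℂ,
      6 * Real.pi * k < |winding ω z s t|) ≤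
      Real.exp (K * y ^ 2 * Real.log n ^ 2) * Real.exp (-(lam * k)) := by
    refine Pool.Agent.Y981.QB.prob_le_of_lists n _
      (fun l => BadX (fun i => (Pool.Agent.Y981.QB.gt l i).1) k n) _ ?_ (by positivity) ?_
    · intro ω hω hbad
      obtain ⟨s, t, hst, ht, z, hbad⟩ := hbad
      refine ⟨s, t, hst, ht, fun hcut => ?_⟩
      have hgt : ∀ i ≤ n, Pool.Agent.Y981.QB.gt (List.ofFn ω) i = ω (Fin.ofNat (n + 1) i) := by
        intro i hi
        have e : ((Fin.ofNat (n + 1) i : Fin (n + 1)) : ℕ) = i := by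
          simp [Nat.mod_eq_of_lt (show i < n + 1 by omega)]
        have := Pool.Agent.Y981.QB.gt_ofFn ω (Fin.ofNat (n + 1) i)
        rwa [e] at this
      have hcut' : CutX (fun i => (ω (Fin.ofNat (n + 1) i)).1) s t k :=
        hcut.congr (fun i hi => by rw [hgt i hi]) ht
      have hU : UPath n (fun i => H978R2.Hex.pos (ω (Fin.ofNat (n + 1) i))) := by
        refine upath_of (f := fun i => ω (Fin.ofNat (n + 1) i)) ?_ ?_
        · intro i hi
          have h1 := hω.2.2 ⟨i, hi⟩
          have e1 : (Fin.ofNat (n + 1) i : Fin (n + 1)) = (⟨i, hi⟩ : Fin n).castSucc := by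
            apply Fin.ext
            simp [Nat.mod_eq_of_lt (show i < n + 1 by omega)]
          have e2 : (Fin.ofNat (n + 1) (i + 1) : Fin (n + 1)) = (⟨i, hi⟩ : Fin n).succ := by
            apply Fin.ext
            simp [Nat.mod_eq_of_lt (show i + 1 < n + 1 by omega)]
          simp only [e1, e2]
          exact h1
        · intro i j hij hj he
          have h1 := hω.2.1 he
          have h2 := congrArg Fin.val h1
          simp [Nat.mod_eq_of_lt (show i < n + 1 by omega),
            Nat.mod_eq_of_lt (show j < n + 1 by omega)] at h2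
          omega
      have hT := wnd_of_cutX (f := fun i => ω (Fin.ofNat (n + 1) i)) hU ht hcut' z
      have hpt : ∀ i, pt ω i = H978R2.Hex.pos (ω (Fin.ofNat (n + 1) i)) := fun i => pos_eq _
      unfold winding at hbad
      unfold wnd at hT
      simp only [hpt] at hbad
      linarith
    · intro F hF
      have h1 := h y hy1 n hn k (0, 0) F hF
      have hE := Real.exp_pos (-(lam * k))
      calc (F.card : ℝ) = (y ^ k * Real.exp (-(lam * k))) * F.card := by rw [hyk, one_mul]
        _ = (y ^ k * F.card) * Real.exp (-(lam * k)) := by ring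
        _ ≤ (H978R2.Hex.mu0 ^ n * Real.exp (K * y ^ 2 * Real.log n ^ 2)) *
            Real.exp (-(lam * k)) := by gcongr
        _ = _ := by ring
  have e : prob n (fun ω => ∃ s t : ℕ, s ≤ t ∧ t ≤ n ∧ ∃ z : ℂ,
      6 * Real.pi * k < |winding ω z s t|) =
      Pool.Agent.Y981.QB.prob n (fun ω => ∃ s t : ℕ, s ≤ t ∧ t ≤ n ∧ ∃ z : ℂ,
      6 * Real.pi * k < |winding ω z s t|) := by
    unfold prob Pool.Agent.Y981.QB.prob
    rw [walks_eq]
  rw [e]
  refine key.trans ?_
  rw [← Real.exp_add, hy2]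
  apply Real.exp_le_exp.mpr
  have : 0 ≤ y ^ 2 * Real.log n ^ 2 := by positivity
  nlinarith

end Pool.Agent.Results.MP_b440f6_pr.WindingAroundPoints
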